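import Pool.Agent.Y976.TH.All

/-!
# The phase diagram of the diameter, uniformly in the inverse temperature

The definitions `env`, `treeWt`, `gibbs`, `avg` are in `Pool.Agent.TH972.RDefs`; `pred`, `Near`,
`Away`, `HasDiam` are in `Pool.Agent.Y976.TH.Stm`.
-/

set_option autoImplicit false

open Filter Topology Pool.Agent.TH972.RSTRE Pool.Agent.Y976.TH

namespace Pool.Agent.Results.MP_7946c7_pr.UniformPhaseDiagram

/-- (1) Uniformly over all `β ≥ 0` outside the window `(n log log n, n ^ (1 + δ))`, the diameter is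
within a factor `n ^ ε` of `max (n ^ (1/3), min (n ^ (1/2), n / √β))` with averaged probability
tending to one; (2) the lower bound holds uniformly over all `β ≥ 0`. (3) For all sequences
`β_n ≥ 0`: necessary and sufficient conditions for the diameter to have exponent `1/2 - γ/2`
(`0 < γ < 1/3`) and `1/3`, and a necessary condition for the exponent `1/2`; (4) a sufficient
condition for the exponent `1/2`. (5)-(7) The three cases of the question. -/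
theorem result :
    (∀ δ ε η : ℝ, 0 < δ → 0 < ε → 0 < η → ∀ᶠ n : ℕ in atTop, ∀ β : ℝ, Away δ n β →
      1 - η ≤ avg β n (Near ε n β)) ∧
    (∀ ε η : ℝ, 0 < ε → 0 < η → ∀ᶠ n : ℕ in atTop, ∀ β : ℝ, 0 ≤ β →
      1 - η ≤ avg β n (fun T => pred n β * (n : ℝ) ^ (-ε) ≤ (T.diam : ℝ))) ∧
    (∀ β : ℕ → ℝ, (∀ n, 0 ≤ β n) →
      (∀ γ : ℝ, 0 < γ → γ < 1 / 3 → (HasDiam β (1 / 2 - γ / 2) ↔
        Tendsto (fun n : ℕ => Real.log (β n) / Real.log n) atTop (𝓝 (1 + γ)))) ∧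
      (HasDiam β (1 / 3) ↔
        ∀ c : ℝ, 0 < c → ∀ᶠ n : ℕ in atTop, (n : ℝ) ^ (4 / 3 - c) ≤ β n) ∧
      (HasDiam β (1 / 2) → ∀ c : ℝ, 0 < c → ∀ᶠ n : ℕ in atTop, β n ≤ (n : ℝ) ^ (1 + c))) ∧
    (∀ β : ℕ → ℝ, (∀ᶠ n : ℕ in atTop, 0 ≤ β n ∧ β n ≤ n * Real.log (Real.log n)) →
      HasDiam β (1 / 2)) ∧
    (∀ C : ℝ, 0 < C → ∀ β : ℕ → ℝ, (∀ n, 0 ≤ β n) → (∀ᶠ n : ℕ in atTop, β n ≤ C * n) →
      HasDiam β (1 / 2)) ∧
    (∀ γ : ℝ, 0 < γ → γ < 1 / 3 → ∀ β : ℕ → ℝ, (∀ n, 0 ≤ β n) →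
      Tendsto (fun n : ℕ => Real.log (β n) / Real.log n) atTop (𝓝 (1 + γ)) →
      HasDiam β (1 / 2 - γ / 2)) ∧
    (∀ C : ℝ, 0 < C → ∀ β : ℕ → ℝ, (∀ᶠ n : ℕ in atTop, C * (n : ℝ) ^ (4 / 3 : ℝ) ≤ β n) →
      HasDiam β (1 / 3)) := by
  refine ⟨unif, unif_low, fun β hβ => ⟨fun γ h0 h3 => iff_mid2 hβ h0 h3, iff_third2 hβ,
    half_nec hβ⟩, fun β hβ => high_temp_of hβ, ?_, ?_, ?_⟩
  · intro C _ β hβ0 hβ ε hε
    exact Pool.Agent.TH972.U.high_temp C β hβ0 hβ ε hε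
  · intro γ h0 h3 β hβ0 hβ ε hε
    have h := Pool.Agent.TH972.U.sharp_exp γ h0 h3 β hβ0 hβ ε hε
    have e : (1 - γ) / 2 = 1 / 2 - γ / 2 := by ring
    rw [e] at h
    exact h
  · intro C hC β hβ ε hε
    exact Pool.Agent.TH972.low_temp C hC β hβ ε hε

end Pool.Agent.Results.MP_7946c7_pr.UniformPhaseDiagram
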